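import Pool.Agent.H82.LIG

/-!
# It is consistent that `𝔰𝔰_cc < 𝔡`

* There is a preordered set of forcing conditions which preserves all cardinals and forces Martin's
  axiom for `ℵ₁` dense sets (`MartinFor Om1`; see `Pool.Agent.W684.FM`), and Martin's axiom for
  `ℵ₁` dense sets implies `ℵ₁ < 𝔡`.
* If `ℵ₁ < 𝔡`, then there are a set `K` of cardinality `ℵ₁` and a preordered set of conditions (the
  finite support iteration, of length `ω₁`, of the forcing which adds a slalom, bounded by `hh`,
  which captures all elements of `∏ ccb` of the ground model), which satisfies the countable chain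
  condition, every condition of which forces the sentence `Ψ`: there is a family of slaloms `S w`,
  indexed by `K`, with `|S w n| ≤ hh n`, such that every element `x` of `∏ ccb` satisfies
  `x n ∈ S w n` for all but finitely many `n`, for some `w`; and no family of functions from `ω` to
  `ω`, indexed by `K`, is dominating.
* The sentence `Ψ` implies that `𝔰𝔰_cc ≤ |K| < 𝔡`.

Therefore `𝔰𝔰_cc < 𝔡` is consistent (a two-step forcing argument: first Martin's axiom is forced,
then `Ψ` is forced over the extension).

A sentence of the forcing language is the set of the conditions which force it; `fnot`, `fand`,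
`fall` are the usual clauses of the definition of forcing and `fimp`, `fex` are defined from them
classically. The sentence `PsiHolds ccb hh P K` is the translation of the proposition
`PsiFor ccb hh K` into the forcing language; `hh` and `ccb` are explicit functions. `ssCC` is
`𝔰𝔰_cc` and `dNumber` is the dominating number `𝔡`.
-/

set_option autoImplicit false

namespace Pool.Agent.Results.MP_d37bef_lc.SubseriesLtDominating

open Cardinal Pool.Agent.H82.LI

theorem result :
    -- Martin's axiom for `ℵ₁` dense sets can be forced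
    (∃ (P : Type) (_ : Preorder P), Nonempty P ∧ ∀ p : P,
      p ∈ Pool.Agent.Helper669.Forcing.CardinalsPreserved.{0, 0} P ∧
      p ∈ Pool.Agent.W684.FM.OmegaOnePreserved P ∧
      p ∈ Pool.Agent.W684.FM.MartinHolds P Pool.Agent.W684.FM.Om1) ∧
    (Pool.Agent.W684.FM.MartinFor Pool.Agent.W684.FM.Om1 ↔
      Pool.Agent.W684.MartinAxiomAleph1) ∧
    -- Martin's axiom implies `ℵ₁ < 𝔡`
    (Pool.Agent.W684.FM.MartinFor Pool.Agent.W684.FM.Om1 → ℵ₁ < dNumber) ∧
    -- if `ℵ₁ < 𝔡`, then the sentence `Ψ` can be forced
    (ℵ₁ < dNumber → ∃ (K P : Type) (_ : Preorder P), #K = ℵ₁ ∧ Nonempty P ∧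
      (∀ A : Set P, (∀ p ∈ A, ∀ q ∈ A, p ≠ q → ¬ ∃ r, r ≤ p ∧ r ≤ q) → A.Countable) ∧
      ∀ p : P, p ∈ PsiHolds ccb hh P K) ∧
    -- the sentence `Ψ` implies `𝔰𝔰_cc < 𝔡`
    (∀ K : Type, PsiFor ccb hh K →
      Pool.Agent.K4H98.Subseries.ssCC ≤ #K ∧ #K < dNumber) :=
  ⟨Pool.Agent.W684.FM.exists_forcing Pool.Agent.W684.FM.Om1,
    Pool.Agent.W684.FM.martinFor_om1_iff, lt_dNumber_of_martin, exists_forcing,
    fun _ h => psi_imp h⟩

end Pool.Agent.Results.MP_d37bef_lc.SubseriesLtDominating
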